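import Pool.Agent.Helper83.EP.Defs

/-!
# The number of labelled structures depends on the truncated sizes only
-/

set_option autoImplicit false

namespace Pool.Agent.Helper83.EP

open FirstOrder Pool.Agent.Helper20.Spectra Pool.Agent.Helper58.QD Pool.Agent.Helper29.MW Pool.Agent.Helper14.SS
open Pool.Agent.Helper31.QD (Au)

variable {S : Type} {ar : S → ℕ}

/-- the transported structure -/
def trs {M M' : Type} (e : M ≃ M') (R : Interp S ar M) : Interp S ar M' :=
  fun s w => R s (fun i => e.symm (w i))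

lemma trs_trs {M M' : Type} (e : M ≃ M') (R : Interp S ar M) : trs e.symm (trs e R) = R := by
  funext s w
  show R s (fun i => e.symm (e.symm.symm (w i))) = R s w
  congr 1
  funext i
  exact e.symm_apply_apply (w i)

lemma trs_au {M M' : Type} [DecidableEq M] [DecidableEq M'] (e : M ≃ M') {R : Interp S ar M}
    {x y : M} (h : Au R (Equiv.swap x y)) : Au (trs e R) (Equiv.swap (e x) (e y)) := by
  intro s w
  show R s (fun i => e.symm (Equiv.swap (e x) (e y) (w i))) ↔ R s (fun i => e.symm (w i))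
  rw [← h s (fun i => e.symm (w i))]
  have : (fun i => e.symm (Equiv.swap (e x) (e y) (w i))) =
      Equiv.swap x y ∘ fun i => e.symm (w i) := by
    funext i
    show e.symm (Equiv.swap (e x) (e y) (w i)) = Equiv.swap x y (e.symm (w i))
    rw [e.symm_apply_eq]
    obtain ⟨z, hz⟩ := e.surjective (w i)
    rw [← hz, e.symm_apply_apply, e.injective.map_swap]
  rw [this]

lemma trs_lab {M M' : Type} [DecidableEq M] [DecidableEq M'] {m : ℕ} (e : M ≃ M')
    {R : Interp S ar M} {f : M → Fin m} {f' : M' → Fin m} (hf : ∀ x, f' (e x) = f x)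
    (h : Lab R f) : Lab (trs e R) f' := by
  intro x y
  obtain ⟨a, rfl⟩ := e.surjective x
  obtain ⟨b, rfl⟩ := e.surjective y
  rw [hf, hf, h a b]
  constructor
  · exact trs_au e
  · intro h1
    have h2 := trs_au e.symm h1
    rw [trs_trs, e.symm_apply_apply, e.symm_apply_apply] at h2
    exact h2

/-- invariance under isomorphisms -/
lemma aN_iso {M M' : Type} [DecidableEq M] [DecidableEq M'] {m : ℕ} (ψ : MFm S ar 0 0)
    (e : M ≃ M') {f : M → Fin m} {f' : M' → Fin m} (hf : ∀ x, f' (e x) = f x) :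
    aN ψ f = aN ψ f' := by
  unfold aN
  refine Nat.card_congr ?_
  exact
    { toFun := fun R => ⟨trs e R.1, trs_lab e hf R.2.1, (MSat.iso R.1 e ψ).1 R.2.2⟩
      invFun := fun R => ⟨trs e.symm R.1, trs_lab e.symm (fun x => by
        rw [← hf, e.apply_symm_apply]) R.2.1, (MSat.iso R.1 e.symm ψ).1 R.2.2⟩
      left_inv := fun R => Subtype.ext (trs_trs e R.1)
      right_inv := fun R => Subtype.ext (trs_trs e.symm R.1) }

/-- the number for given sizes -/
noncomputable def aS (ψ : MFm S ar 0 0) {m : ℕ} (τ : Fin m → ℕ) : ℕ :=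
  aN ψ (Sigma.fst : (Σ i : Fin m, Fin (τ i)) → Fin m)

lemma aN_eq (ψ : MFm S ar 0 0) {m : ℕ} (M : Type) [Finite M] [DecidableEq M] (f : M → Fin m) :
    aN ψ f = aS ψ (fun i => Nat.card {x // f x = i}) := by
  unfold aS
  refine aN_iso ψ ((Equiv.sigmaFiberEquiv f).symm.trans
    (Equiv.sigmaCongrRight fun i => Finite.equivFin {x // f x = i})) (fun x => ?_)
  rfl

lemma card_ne {m : ℕ} {M : Type} [Finite M] (f : M → Fin m) (x : M) {j : Fin m} (h : f x ≠ j) :
    Nat.card {y : {y // y ≠ x} // f y.1 = j} = Nat.card {y // f y = j} :=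
  Nat.card_congr
    { toFun := fun y => ⟨y.1.1, y.2⟩
      invFun := fun y => ⟨⟨y.1, fun hy => h (by rw [← hy]; exact y.2)⟩, y.2⟩
      left_inv := fun y => rfl
      right_inv := fun y => rfl }

lemma card_eq' {m : ℕ} {M : Type} [Finite M] (f : M → Fin m) (x : M) :
    Nat.card {y : {y // y ≠ x} // f y.1 = f x} + 1 = Nat.card {y // f y = f x} := by
  classical
  have e1 : {y : {y // y ≠ x} // f y.1 = f x} ≃
      {b : {y // f y = f x} // b ≠ ⟨x, rfl⟩} :=
    { toFun := fun y => ⟨⟨y.1.1, y.2⟩, fun hy => y.1.2 (congrArg Subtype.val hy)⟩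
      invFun := fun y => ⟨⟨y.1.1, fun hy => y.2 (Subtype.ext hy)⟩, y.1.2⟩
      left_inv := fun y => rfl
      right_inv := fun y => rfl }
  rw [Nat.card_congr e1, ← Finite.card_option]
  exact Nat.card_congr (Equiv.optionSubtypeNe _)

/-- E3 -/
theorem aN_trunc (h : ∀ (S : Type) [Finite S] (ar : S → ℕ) (ψ : MFm S ar 0 0), ∃ Q : ℕ, 1 ≤ Q ∧
      ∀ (m : ℕ) (M : Type) [Finite M] [DecidableEq M] (f : M → Fin m) (x : M),
        Q < Nat.card {y // f y = f x} → aN ψ f = aN ψ (fun y : {y // y ≠ x} => f y.1))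
    [Finite S] (ψ : MFm S ar 0 0) : ∃ Q : ℕ, 1 ≤ Q ∧ ∀ m : ℕ, ∃ α : (Fin m → ℕ) → ℕ,
    ∀ (M : Type) [Finite M] [DecidableEq M] (f : M → Fin m),
      aN ψ f = α (fun i => min Q (Nat.card {x // f x = i})) := by
  obtain ⟨Q, hQ1, hQ⟩ := h S ar ψ
  refine ⟨Q, hQ1, fun m => ⟨aS ψ, ?_⟩⟩
  have key : ∀ (N : ℕ) (M : Type) [Finite M] [DecidableEq M] (f : M → Fin m), Nat.card M = N →
      aN ψ f = aS ψ (fun i => min Q (Nat.card {x // f x = i})) := by
    intro N
    induction N using Nat.strong_induction_on with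
    | _ N ih =>
      intro M _ _ f hN
      by_cases hall : ∀ i, Nat.card {x // f x = i} ≤ Q
      · rw [aN_eq]
        congr 1
        funext i
        exact (min_eq_right (hall i)).symm
      · push Not at hall
        obtain ⟨i, hi⟩ := hall
        have hpos : 0 < Nat.card {x // f x = i} := by omega
        obtain ⟨⟨x, rfl⟩⟩ := (Finite.card_pos_iff.1 hpos)
        rw [hQ m M f x hi]
        have hc : Nat.card {y // y ≠ x} < N := by
          have h1 : Nat.card {y // y ≠ x} + 1 = Nat.card M := by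
            classical
            rw [← Finite.card_option]
            exact Nat.card_congr (Equiv.optionSubtypeNe x)
          omega
        rw [ih _ hc {y // y ≠ x} (fun y => f y.1) rfl]
        congr 1
        funext j
        by_cases hj : f x = j
        · subst hj
          have := card_eq' f x
          rw [min_eq_left (by omega), min_eq_left (by omega)]
        · rw [card_ne f x hj]
  intro M _ _ f
  exact key _ M f rfl

end Pool.Agent.Helper83.EP
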