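import Pool.Agent.Helper20.EP.E5

/-!
# Labellings of the twin classes, for a fixed number of points
-/

set_option autoImplicit false

namespace Pool.Agent.Helper83.EP

open FirstOrder Pool.Agent.Helper20.Spectra Pool.Agent.Helper58.QD Pool.Agent.Helper29.MW Pool.Agent.Helper14.SS
open Pool.Agent.Helper31.QD (Au)
open Pool.Agent.Helper83.FM (NT tw_refl tw_symm tw_trans)

variable {S : Type} {ar : S → ℕ}

/-- `m!` labellings, for a fixed number of points -/
theorem cnt_eq_at [Finite S] (ψ : MFm S ar 0 0) (r n : ℕ)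
    (h : ∀ (R : Interp S ar (Fin n)) (T : Finset (Fin n)), MSat R ψ →
      Pool.Agent.Helper83.FM.NT R T → T.card ≤ r) :
    (Nat.card {R : Interp S ar (Fin n) // MSat R ψ} : ℚ) = ∑ m ∈ Finset.range (r + 1), (1 / (m.factorial : ℚ)) *
      ∑ f : Fin n → Fin m, (if Function.Surjective f then (aN ψ f : ℚ) else 0) := by
  classical
  have hfin : Finite {R : Interp S ar (Fin n) // MSat R ψ} := inferInstance
  have := Fintype.ofFinite {R : Interp S ar (Fin n) // MSat R ψ}
  have ha : ∀ (m : ℕ) (f : Fin n → Fin m), (aN ψ f : ℚ) =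
      ∑ R : {R : Interp S ar (Fin n) // MSat R ψ}, if Lab R.1 f then 1 else 0 := by
    intro m f
    rw [← card_sum]
    unfold aN
    congr 1
    refine Nat.card_congr ?_
    exact
      { toFun := fun R => ⟨⟨R.1, R.2.2⟩, R.2.1⟩
        invFun := fun R => ⟨R.1.1, R.2, R.1.2⟩
        left_inv := fun R => rfl
        right_inv := fun R => rfl }
  have hm : ∀ m : ℕ, (1 / (m.factorial : ℚ)) *
      ∑ f : Fin n → Fin m, (if Function.Surjective f then (aN ψ f : ℚ) else 0) =
      ∑ R : {R : Interp S ar (Fin n) // MSat R ψ},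
        if Nat.card (Quotient (tws R.1)) = m then 1 else 0 := by
    intro m
    have h1 : ∑ f : Fin n → Fin m, (if Function.Surjective f then (aN ψ f : ℚ) else 0) =
        ∑ R : {R : Interp S ar (Fin n) // MSat R ψ},
          ∑ f : Fin n → Fin m, (if Function.Surjective f ∧ Lab R.1 f then (1 : ℚ) else 0) := by
      rw [Finset.sum_comm]
      refine Finset.sum_congr rfl (fun f _ => ?_)
      rw [ha]
      by_cases hf : Function.Surjective f
      · simp [hf]
      · simp [hf]
    rw [h1, Finset.mul_sum]
    refine Finset.sum_congr rfl (fun R _ => ?_)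
    rw [← card_sum, card_lab]
    have h2 : (m.factorial : ℚ) ≠ 0 := by exact_mod_cast m.factorial_ne_zero
    split_ifs
    · field_simp
    · simp
  rw [Finset.sum_congr rfl (fun m _ => hm m), Finset.sum_comm]
  have h1 : ∀ R : {R : Interp S ar (Fin n) // MSat R ψ}, (∑ m ∈ Finset.range (r + 1),
      if Nat.card (Quotient (tws R.1)) = m then (1 : ℚ) else 0) = 1 := by
    intro R
    rw [Finset.sum_ite_eq, if_pos]
    have := card_classes (R := R.1) (fun T hT => h R.1 T R.2 hT)
    rw [Finset.mem_range]
    omega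
  rw [Finset.sum_congr rfl (fun R _ => h1 R), Nat.card_eq_fintype_card]
  simp

end Pool.Agent.Helper83.EP
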