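import Pool.Agent.Helper83.EP.Asm
import Pool.Agent.Helper20.EP.E3
import Pool.Agent.Helper20.EP.E5a

/-!
# Exponential polynomials at the numbers of points where there are boundedly many twin classes
-/

set_option autoImplicit false

namespace Pool.Agent.Helper83.EP

open FirstOrder Pool.Agent.Helper20.Spectra Pool.Agent.Helper58.QD Pool.Agent.Helper29.MW Pool.Agent.Helper14.SS
open Pool.Agent.Helper31.QD (Au)
open Pool.Agent.Helper83.FM
open Filter

variable {S : Type} {ar : S → ℕ}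

/-- one exponential polynomial gives the number of models with `n` points for all `n` for which the
models have at most `r` twin classes -/
theorem ep_at [Finite S] (φ : SFm (RelLang S ar) 0 0) (r : ℕ) : ∃ F ∈ EP, ∀ n : ℕ,
    (∀ (R : Interp S ar (Fin n)) (T : Finset (Fin n)), Helper40.MCM.SatM φ R → NT R T → T.card ≤ r) →
    (Helper40.MCM.countM φ n : ℚ) = F n := by
  classical
  obtain ⟨ψ, hψ⟩ := Helper6.MC.exists_mfm φ
  have hcnt : ∀ n, Nat.card {R : Interp S ar (Fin n) // MSat R ψ} =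
      Helper40.MCM.countM φ n := fun n =>
    Nat.card_congr (Equiv.subtypeEquivRight fun R => (hψ (Fin n) R).symm)
  obtain ⟨Q, hQ, hα⟩ := aN_trunc (fun S _ ar ψ => stmtStep0 S ar ψ) ψ
  choose α hα using hα
  choose F hF hF' using fun (m : ℕ) (τ : Fin m → ℕ) => Pool.Agent.Helper53.EP.count_trunc Q m τ
  refine ⟨∑ m ∈ Finset.range (r + 1), (1 / (m.factorial : ℚ)) • ∑ τ : Fin m → Fin (Q + 1),
        (if ∀ i, 1 ≤ (τ i : ℕ) then (α m (fun i => (τ i : ℕ)) : ℚ) else 0) • F m (fun i => (τ i : ℕ)),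
    Submodule.sum_mem _ fun m _ => Submodule.smul_mem _ _ (Submodule.sum_mem _ fun τ _ =>
      Submodule.smul_mem _ _ (hF m _)), fun n hn => ?_⟩
  rw [← hcnt n, cnt_eq_at ψ r n (fun R T hR hT => hn R T ((hψ (Fin n) R).2 hR) hT), Finset.sum_apply]
  refine Finset.sum_congr rfl fun m _ => ?_
  rw [Pi.smul_apply, smul_eq_mul, Finset.sum_apply]
  congr 1
  have h1 : ∀ f : Fin n → Fin m, (if Function.Surjective f then (aN ψ f : ℚ) else 0) =
      if Function.Surjective f then
        ((fun τ => (α m τ : ℚ)) (fun i => min Q (Nat.card {x // f x = i}))) else 0 := by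
    intro f
    rw [hα m (Fin n) f]
  rw [Finset.sum_congr rfl fun f _ => h1 f]
  refine (sum_sizes hQ (fun τ => (α m τ : ℚ))).trans ?_
  refine Finset.sum_congr rfl fun τ _ => ?_
  rw [Pi.smul_apply, smul_eq_mul, hF' m (fun i => (τ i : ℕ)) (Fin n), Nat.card_eq_fintype_card (α := Fin n),
    Fintype.card_fin]

/-- the same with explicit polynomials -/
theorem exp_poly_at [Finite S] (φ : SFm (RelLang S ar) 0 0) (r : ℕ) :
    ∃ (m : ℕ) (p : Fin m → Polynomial ℚ), ∀ᶠ n : ℕ in Filter.atTop,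
      (∀ (R : Interp S ar (Fin n)) (T : Finset (Fin n)), Helper40.MCM.SatM φ R → NT R T → T.card ≤ r) →
      (Helper40.MCM.countM φ n : ℚ) = ∑ j, (p j).eval (n : ℚ) * ((j : ℕ) + 1 : ℚ) ^ n := by
  obtain ⟨F, hF, h⟩ := ep_at φ r
  obtain ⟨m, p, hp⟩ := Pool.Agent.Helper38.EP.EP_eventually hF
  refine ⟨m, p, ?_⟩
  filter_upwards [hp] with n hn hr
  rw [h n hr, hn]

end Pool.Agent.Helper83.EP
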