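import Pool.Agent.Helper83.EP.Defs

/-!
# Labellings of the twin classes
-/

set_option autoImplicit false

namespace Pool.Agent.Helper83.EP

open FirstOrder Pool.Agent.Helper20.Spectra Pool.Agent.Helper58.QD Pool.Agent.Helper29.MW Pool.Agent.Helper14.SS
open Pool.Agent.Helper31.QD (Au)
open Pool.Agent.Helper83.FM (NT tw_refl tw_symm tw_trans)

variable {S : Type} {ar : S → ℕ}

/-- the twin classes -/
def tws {n : ℕ} (R : Interp S ar (Fin n)) : Setoid (Fin n) where
  r x y := Au R (Equiv.swap x y)
  iseqv := ⟨tw_refl R, tw_symm, tw_trans⟩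

/-- labellings are bijections of the set of classes with `Fin m` -/
noncomputable def labEquiv {n m : ℕ} (R : Interp S ar (Fin n)) :
    {f : Fin n → Fin m // Function.Surjective f ∧ Lab R f} ≃ (Quotient (tws R) ≃ Fin m) where
  toFun f := Equiv.ofBijective (Quotient.lift f.1 (fun x y h => (f.2.2 x y).2 h)) ⟨by
    intro a b
    refine Quotient.inductionOn₂ a b (fun x y h => ?_)
    exact Quotient.sound ((f.2.2 x y).1 h), fun i => by
      obtain ⟨x, hx⟩ := f.2.1 i
      exact ⟨Quotient.mk _ x, hx⟩⟩
  invFun e := ⟨fun x => e (Quotient.mk _ x), fun i => by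
      obtain ⟨a, rfl⟩ := e.surjective i
      obtain ⟨x, rfl⟩ := Quotient.exists_rep a
      exact ⟨x, rfl⟩, fun x y => by
      rw [e.injective.eq_iff]
      exact Quotient.eq⟩
  left_inv f := rfl
  right_inv e := by
    ext a
    refine Quotient.inductionOn a (fun x => ?_)
    rfl

lemma card_lab {n m : ℕ} (R : Interp S ar (Fin n)) :
    Nat.card {f : Fin n → Fin m // Function.Surjective f ∧ Lab R f} =
      if Nat.card (Quotient (tws R)) = m then m.factorial else 0 := by
  classical
  rw [Nat.card_congr (labEquiv R)]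
  have : Finite (Quotient (tws R)) := inferInstance
  have := Fintype.ofFinite (Quotient (tws R))
  split_ifs with h
  · have e : Quotient (tws R) ≃ Fin m := Fintype.equivFinOfCardEq (by
      rw [← Nat.card_eq_fintype_card]
      exact h)
    rw [Nat.card_eq_fintype_card, Fintype.card_equiv e, ← Nat.card_eq_fintype_card, h]
  · have : IsEmpty (Quotient (tws R) ≃ Fin m) := by
      refine ⟨fun e => h ?_⟩
      rw [Nat.card_congr e, Nat.card_eq_fintype_card, Fintype.card_fin]
    exact Nat.card_of_isEmpty

lemma card_classes {n r : ℕ} {R : Interp S ar (Fin n)}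
    (h : ∀ T : Finset (Fin n), NT R T → T.card ≤ r) : Nat.card (Quotient (tws R)) ≤ r := by
  classical
  have : Finite (Quotient (tws R)) := inferInstance
  have := Fintype.ofFinite (Quotient (tws R))
  have hinj : Function.Injective (Quotient.out : Quotient (tws R) → Fin n) := by
    intro a b hab
    rw [← Quotient.out_eq a, ← Quotient.out_eq b, hab]
  have h1 := h (Finset.univ.image (Quotient.out : Quotient (tws R) → Fin n)) (by
    intro x hx y hy hxy hau
    rw [Finset.mem_image] at hx hy
    obtain ⟨a, _, rfl⟩ := hx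
    obtain ⟨b, _, rfl⟩ := hy
    have h2 : a = b := by
      rw [← Quotient.out_eq a, ← Quotient.out_eq b]
      exact Quotient.sound hau
    exact hxy (by rw [h2]))
  rw [Finset.card_image_of_injective _ hinj, Finset.card_univ] at h1
  rwa [Nat.card_eq_fintype_card]

lemma card_sum {α : Type} [Fintype α] (p : α → Prop) [DecidablePred p] :
    (Nat.card {a // p a} : ℚ) = ∑ a, if p a then 1 else 0 := by
  rw [Nat.card_eq_fintype_card, Fintype.card_subtype, Finset.card_filter]
  push_cast
  rfl

/-- E5: `m!` labellings -/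
theorem cnt_eq [Finite S] (ψ : MFm S ar 0 0) (r : ℕ)
    (h : ∀ (n : ℕ) (R : Interp S ar (Fin n)) (T : Finset (Fin n)), MSat R ψ →
      Pool.Agent.Helper83.FM.NT R T → T.card ≤ r) (n : ℕ) :
    (Nat.card {R : Interp S ar (Fin n) // MSat R ψ} : ℚ) = ∑ m ∈ Finset.range (r + 1), (1 / (m.factorial : ℚ)) *
      ∑ f : Fin n → Fin m, (if Function.Surjective f then (aN ψ f : ℚ) else 0) := by
  classical
  have hfin : Finite {R : Interp S ar (Fin n) // MSat R ψ} := inferInstance
  have := Fintype.ofFinite {R : Interp S ar (Fin n) // MSat R ψ}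
  have ha : ∀ (m : ℕ) (f : Fin n → Fin m), (aN ψ f : ℚ) =
      ∑ R : {R : Interp S ar (Fin n) // MSat R ψ}, if Lab R.1 f then 1 else 0 := by
    intro m f
    rw [← card_sum]
    unfold aN
    congr 1
    refine Nat.card_congr ?_
    exact
      { toFun := fun R => ⟨⟨R.1, R.2.2⟩, R.2.1⟩
        invFun := fun R => ⟨R.1.1, R.2, R.1.2⟩
        left_inv := fun R => rfl
        right_inv := fun R => rfl }
  have hm : ∀ m : ℕ, (1 / (m.factorial : ℚ)) *
      ∑ f : Fin n → Fin m, (if Function.Surjective f then (aN ψ f : ℚ) else 0) =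
      ∑ R : {R : Interp S ar (Fin n) // MSat R ψ},
        if Nat.card (Quotient (tws R.1)) = m then 1 else 0 := by
    intro m
    have h1 : ∑ f : Fin n → Fin m, (if Function.Surjective f then (aN ψ f : ℚ) else 0) =
        ∑ R : {R : Interp S ar (Fin n) // MSat R ψ},
          ∑ f : Fin n → Fin m, (if Function.Surjective f ∧ Lab R.1 f then (1 : ℚ) else 0) := by
      rw [Finset.sum_comm]
      refine Finset.sum_congr rfl (fun f _ => ?_)
      rw [ha]
      by_cases hf : Function.Surjective f
      · simp [hf]
      · simp [hf]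
    rw [h1, Finset.mul_sum]
    refine Finset.sum_congr rfl (fun R _ => ?_)
    rw [← card_sum, card_lab]
    have h2 : (m.factorial : ℚ) ≠ 0 := by exact_mod_cast m.factorial_ne_zero
    split_ifs
    · field_simp
    · simp
  rw [Finset.sum_congr rfl (fun m _ => hm m), Finset.sum_comm]
  have h1 : ∀ R : {R : Interp S ar (Fin n) // MSat R ψ}, (∑ m ∈ Finset.range (r + 1),
      if Nat.card (Quotient (tws R.1)) = m then (1 : ℚ) else 0) = 1 := by
    intro R
    rw [Finset.sum_ite_eq, if_pos]
    have := card_classes (R := R.1) (fun T hT => h n R.1 T R.2 hT)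
    rw [Finset.mem_range]
    omega
  rw [Finset.sum_congr rfl (fun R _ => h1 R), Nat.card_eq_fintype_card]
  simp

end Pool.Agent.Helper83.EP
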